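import Pool.Agent.R950.LoopQ

/-!
# The sheaf `K₁ \ C^{≤μ} / K₁` for `GL_2` is not representable if `μ` is not minuscule

`k` is any field, `G = GL_2`, and `μ = (μ 0, μ 1)` is a dominant cocharacter with `μ 0 - μ 1 ≥ 2`, i.e.
any dominant cocharacter which is not minuscule. The closure `C^{≤μ}` of the Cartan stratum
`L⁺G t^μ L⁺G` is the smallest closed subfunctor of the loop group which contains it. We show that no
`k`-scheme, normal or not, separated or not, represents the fpqc sheaf quotient of `C^{≤μ}` by
`K₁ × K₁`.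

Reason: put `m = μ 0`, `n = μ 1` and consider `M(a, s) = (a t^(m-1), s t^n; 0, a⁻¹ t^(n+1))`. It lies in
`C^{≤μ}`, the double coset of `M(a, s)` does not depend on `a` if `s` is a unit, but that of `M(a, 0)`
does. In a scheme a family which is constant for `s ≠ 0` is constant at `s = 0` (on an affine
neighbourhood `Spec B` of the generic point of the line `s = 0` a function in `B` becomes an element of
`k(a)[[s]] ∩ k((s)) = k[[s]]`).
-/

set_option autoImplicit false

universe u

namespace Pool.Agent.Results.MP_a35d21_ag.NotRepresentable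

open CategoryTheory AlgebraicGeometry Pool.Agent.R950.LoopQ

/-- For every field `k` and every dominant cocharacter `μ` of `GL_2` which is not minuscule, the fpqc
sheaf quotient `K₁ \ C^{≤μ} / K₁` is not representable by a `k`-scheme. -/
theorem result (k : Type u) [Field k] (μ : Fin 2 → ℤ) (hμ : 2 ≤ μ 0 - μ 1) :
    ¬ ∃ (Y : Scheme.{u}) (p : Y ⟶ Spec (.of k)), Nonempty (SheafQuotient μ Y p) := by
  rintro ⟨Y, p, ⟨Q⟩⟩
  have h : μ = ![μ 1 + (((μ 0 - μ 1 - 1).toNat : ℤ) + 1), μ 1] := by
    funext i
    fin_cases i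
    · show μ 0 = μ 1 + (((μ 0 - μ 1 - 1).toNat : ℤ) + 1)
      rw [Int.toNat_of_nonneg (by omega)]
      ring
    · rfl
  rw [h] at Q
  exact main (μ 1) (μ 0 - μ 1 - 1).toNat (by omega) Y p Q

end Pool.Agent.Results.MP_a35d21_ag.NotRepresentable
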